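import Pool.Agent.Lib.MP_150b40_gt.Pf

/-! # The Tait conjecture on the crossing number for diagrams in a disk with `g` holes -/

namespace Pool.Agent.Results.MP_150b40_gt.TaitDiskWithHoles

open Pool.Agent.Tait

/-- Let `D` be a diagram in the disk with `g` holes (`g` is arbitrary) which is connected,
alternating and simple and represents a link of `M_g = #_g (S¹ × S²)` which is trivial in
`H_1(M_g; ℤ/2)`. Then no diagram of the same link has fewer crossings than `D`. -/
theorem result (D D' : Diagram) (hconn : Connected D.word) (halt : Alternating D.word)
    (hsimple : Simple D.word) (hhom : HomTrivial D.word) (hiso : Isotopic D D') :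
    crossings D.word ≤ crossings D'.word :=
  tait D D' hconn halt hsimple hhom hiso

end Pool.Agent.Results.MP_150b40_gt.TaitDiskWithHoles
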